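import Pool.Agent.H60.GrunF.Many

set_option autoImplicit false

/-! Infinitely many pairwise non-similar tiles with six-fold rotational and reflective symmetry
which tile the plane by lattice translations, converge to the regular hexagon and are not
countable unions of polygons. -/

namespace Pool.Agent.Results.MP_a14c6f_co.ManyTiles

/-- The closed regular hexagon with centre `0` and vertices `ρ * exp (i π k / 3)`. -/
def Hexagon (ρ : ℝ) : Set ℂ :=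
  {z | |z.re - z.im / Real.sqrt 3| ≤ ρ ∧ |z.re + z.im / Real.sqrt 3| ≤ ρ ∧
    |2 * z.im / Real.sqrt 3| ≤ ρ}

/-- The vector `√3 i (a + b exp (i π / 3))` of the hexagonal lattice, for `p = (a, b)`. -/
noncomputable def latVec (p : ℤ × ℤ) : ℂ :=
  ((Real.sqrt 3 : ℝ) : ℂ) * Complex.I *
    ((p.1 : ℂ) + (p.2 : ℂ) * Complex.exp (((Real.pi / 3 : ℝ) : ℂ) * Complex.I))

lemma hexagon_eq (ρ : ℝ) : Hexagon ρ = Pool.Agent.H60.GrunF.HexR ρ := by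
  ext z
  have e1 := Pool.Agent.H60.GrunF.YX_eq z
  show _ ↔ |Pool.Agent.H60.Grun.X z| ≤ ρ ∧ |Pool.Agent.H60.Grun.Y z| ≤ ρ ∧
    |Pool.Agent.H60.Grun.Y z - Pool.Agent.H60.Grun.X z| ≤ ρ
  rw [e1]
  exact Iff.rfl

theorem result : ∃ T : ℕ → Set ℂ,
    (∀ n : ℕ,
      Nonempty (T n ≃ₜ Metric.closedBall (0 : ℂ) 1) ∧
      (fun z : ℂ => Complex.exp (((Real.pi / 3 : ℝ) : ℂ) * Complex.I) * z) '' T n = T n ∧
      (∃ c : ℂ, ‖c‖ = 1 ∧ (fun z : ℂ => c * (starRingEnd ℂ) z) '' T n = T n) ∧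
      (⋃ p : ℤ × ℤ, (fun z : ℂ => z + latVec p) '' T n) = Set.univ ∧
      (Pairwise fun p p' : ℤ × ℤ => Disjoint (interior ((fun z : ℂ => z + latVec p) '' T n))
        (interior ((fun z : ℂ => z + latVec p') '' T n))) ∧
      Hexagon (1 - 1 / ((n : ℝ) + 1)) ⊆ T n ∧ T n ⊆ Hexagon (1 + 1 / ((n : ℝ) + 1)) ∧
      (∀ z ∈ frontier (T n), ∀ δ : ℝ, 0 < δ → ∀ α β γ : ℕ → ℝ, (∀ i, α i ≠ 0 ∨ β i ≠ 0) →
        ∃ w ∈ frontier (T n) ∩ Metric.ball z δ, ∀ i, α i * w.re + β i * w.im ≠ γ i) ∧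
      ∀ P : ℕ → Finset ℂ, T n ≠ ⋃ i, convexHull ℝ (P i : Set ℂ)) ∧
    Pairwise fun m n : ℕ => ∀ b c : ℂ, c ≠ 0 →
      T n ≠ (fun z : ℂ => b + c * z) '' T m ∧
      T n ≠ (fun z : ℂ => b + c * (starRingEnd ℂ) z) '' T m := by
  obtain ⟨T, h1, h2⟩ := Pool.Agent.H60.GrunF.many
  refine ⟨T, ?_, ?_⟩
  · intro n
    obtain ⟨⟨g1, g2, g3, g4, g5, g6, g7⟩, g8, g9⟩ := h1 n
    rw [hexagon_eq, hexagon_eq]
    exact ⟨g1, g2, g3, g4, g5, g8, g9, g6, g7⟩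
  · intro m n hmn b c hc
    exact ⟨fun h => h2 hmn ⟨b, c, hc, Or.inl h⟩, fun h => h2 hmn ⟨b, c, hc, Or.inr h⟩⟩

end Pool.Agent.Results.MP_a14c6f_co.ManyTiles
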